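import Pool.Agent.H59.PU.Omega
set_option autoImplicit false

/-! # The theories of the plactic monoids of infinite rank compute the `ω`-jump, uniformly

`PL A` is the plactic monoid `P(A)` on the totally ordered set `A`, `LC C` the language of monoids
with constant symbols `c ∈ C`, `TrueIn g φ` the truth of the sentence `φ` in `P(A)` when the constant
symbol `c` names the generator `g c`, `code` the Gödel numbering of the sentences (all of them in
`Pool/Graph/R_seed8/H358R3/PlacDefs.lean`), and `Arithmetical` the arithmetical sets of natural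
numbers (`Pool/Graph/R_seed8/Y669/TA/Arith.lean`).
-/

namespace Pool.Agent.Results.MP_54e6ab_lc.EssentiallyNonArithmetical

open FirstOrder FirstOrder.Language
open Pool.Agent.H358R3.Plac Pool.Agent.Y669.TA

universe u v

/-- `n` is the Gödel number of a sentence which is true in every plactic monoid (of finite or
infinite rank), whatever generators the constant symbols name. -/
def TrueInAll (C : Type) [Encodable C] (n : ℕ) : Prop :=
  ∃ φ : (LC C).Sentence, code φ = n ∧ ∀ (A : Type) [LinearOrder A] (g : C → A), TrueIn g φ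

/-- `n` is the Gödel number of a sentence which is false in every plactic monoid of infinite rank,
whatever generators the constant symbols name. -/
def FalseInInfiniteRank (C : Type) [Encodable C] (n : ℕ) : Prop :=
  ∃ φ : (LC C).Sentence, code φ = n ∧
    ∀ (A : Type) [LinearOrder A] [Infinite A] (g : C → A), ¬ TrueIn g φ

/-- A plactic monoid together with the generators named by the constant symbols. -/
structure Plactic (C : Type) : Type 1 where
  /-- the totally ordered set -/
  A : Type
  /-- the order -/
  order : LinearOrder A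
  /-- the generators named by the constant symbols -/
  g : C → A

/-- The sentences true in all members of the class `𝒦` of plactic monoids. -/
def CommonTheory {C : Type} (𝒦 : Set (Plactic C)) : (LC C).Theory :=
  {φ | ∀ P ∈ 𝒦, @TrueIn P.A C P.order P.g φ}

/-- The set of the Gödel numbers of the consequences of the theory `T`. -/
def Consequences {C : Type} [Encodable C] (T : (LC C).Theory) (n : ℕ) : Prop :=
  ∃ φ : (LC C).Sentence, code φ = n ∧ T ⊨ᵇ φ

/-- The set of the Gödel numbers of the elements of the theory `T`. -/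
def Codes {C : Type} [Encodable C] (T : (LC C).Theory) (n : ℕ) : Prop :=
  ∃ φ : (LC C).Sentence, code φ = n ∧ φ ∈ T

/-- The jumps: `Jump k ⟨e, a⟩` says `∃ y₁ ¬ ∃ y₂ ¬ … ∃ y_k ¬` (the program with the number `e` halts
on the input `⟨…⟨⟨a, y₁⟩, y₂⟩…, y_k⟩`). -/
def Jump : ℕ → ℕ → Prop
  | 0, x => (Nat.Partrec.Code.eval (Denumerable.ofNat Nat.Partrec.Code x.unpair.1) x.unpair.2).Dom
  | k + 1, x => ∃ y, ¬ Jump k (Nat.pair x.unpair.1 (Nat.pair x.unpair.2 y))

/-- The `ω`-jump: the set of the pairs `⟨k, x⟩` with `Jump k x`. -/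
def OmegaJump (n : ℕ) : Prop := Jump n.unpair.1 n.unpair.2

/-- All arithmetical sets and the `ω`-jump are many-one reducible to `S`, and `S` is neither
arithmetical nor computable. -/
def BeyondArithmetic (S : ℕ → Prop) : Prop :=
  (∀ B : ℕ → Prop, Arithmetical B → B ≤₀ S) ∧ OmegaJump ≤₀ S ∧ ¬ Arithmetical S ∧
    ¬ ComputablePred S

theorem beyond {S : ℕ → Prop} (h : ∀ B : ℕ → Prop, Arithmetical B → B ≤₀ S)
    (h' : OmegaJump ≤₀ S) : BeyondArithmetic S :=
  ⟨h, h', not_arithmetical h, fun hc => not_arithmetical h (.comp _ hc)⟩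

theorem jump_eq (k : ℕ) : ∀ x, Jump k x ↔ Pool.Agent.H59.PU.H k x := by
  induction k with
  | zero => exact fun x => Iff.rfl
  | succ k ih => exact fun x => exists_congr fun y => not_congr (ih _)

theorem uniform (C : Type) [Encodable C] (B : ℕ → Prop) (hB : Arithmetical B ∨ B = OmegaJump) :
    ∃ f : ℕ → ℕ, Computable f ∧
      ∀ n, (B n → TrueInAll C (f n)) ∧ (¬ B n → FalseInInfiniteRank C (f n)) := by
  rcases hB with hB | rfl
  swap
  · obtain ⟨s, hs, h⟩ := Pool.Agent.H59.PU.omega (C := C)
    refine ⟨fun n => code (s n), hs.to_comp, fun n => ?_⟩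
    have e : OmegaJump n ↔ Pool.Agent.H59.PU.Omega n := jump_eq _ _
    rw [e]
    exact ⟨fun hn => ⟨s n, rfl, fun A _ g => (h n).1 hn A g⟩,
      fun hn => ⟨s n, rfl, fun A _ _ g => (h n).2 hn A g⟩⟩
  obtain ⟨Ψ, hΨ⟩ := Pool.Agent.H59.PU.main (C := C) hB
  refine ⟨fun n => code (sig Ψ n), (primrec_sig Ψ).to_comp, fun n => ⟨fun hn => ?_, fun hn => ?_⟩⟩
  · exact ⟨sig Ψ n, rfl, fun A _ g => (hΨ n).1 hn A g⟩
  · exact ⟨sig Ψ n, rfl, fun A _ _ g => (hΨ n).2 hn A g⟩

theorem separate (C : Type) [Encodable C] (S : ℕ → Prop) (h1 : ∀ n, TrueInAll C n → S n)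
    (h2 : ∀ n, FalseInInfiniteRank C n → ¬ S n) : BeyondArithmetic S := by
  suffices h : ∀ B : ℕ → Prop, Arithmetical B ∨ B = OmegaJump → B ≤₀ S from
    beyond (fun B hB => h B (.inl hB)) (h _ (.inr rfl))
  intro B hB
  obtain ⟨f, hf, h⟩ := uniform C B hB
  refine ⟨f, hf, fun n => ⟨fun hn => h1 _ ((h n).1 hn), fun hs => ?_⟩⟩
  by_contra hn
  exact h2 _ ((h n).2 hn) hs

theorem codes_class {C : Type} [Encodable C] (𝒦 : Set (Plactic C)) (P : Plactic C) (hP : P ∈ 𝒦)
    (hinf : Infinite P.A) : BeyondArithmetic (Codes (CommonTheory 𝒦)) := by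
  refine separate C _ ?_ ?_
  · rintro n ⟨φ, rfl, hφ⟩
    exact ⟨φ, rfl, fun Q _ => @hφ Q.A Q.order Q.g⟩
  · rintro n ⟨φ, rfl, hφ⟩ ⟨ψ, hψ, hm⟩
    rw [code_injective _ _ hψ] at hm
    exact @hφ P.A P.order hinf P.g (hm P hP)

theorem consequences_class {C : Type} [Encodable C] (T : (LC C).Theory)
    (h1 : ∀ φ ∈ CommonTheory (Set.univ : Set (Plactic C)), T ⊨ᵇ φ)
    (h2 : (T ∪ CommonTheory {P : Plactic C | Infinite P.A}).IsSatisfiable) :
    BeyondArithmetic (Consequences T) := by
  refine separate C _ ?_ ?_
  · rintro n ⟨φ, rfl, hφ⟩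
    exact ⟨φ, rfl, h1 φ fun Q _ => @hφ Q.A Q.order Q.g⟩
  · rintro n ⟨φ, rfl, hφ⟩ ⟨ψ, hψ, hm⟩
    rw [code_injective _ _ hψ] at hm
    obtain ⟨M⟩ := h2
    have h3 : M ⊨ φ := by
      have h4 : M ⊨ T := (Theory.model_union_iff.1 M.is_model).1
      exact hm.realize_sentence M
    have h5 : M ⊨ φ.not := by
      have h6 : M ⊨ CommonTheory {P : Plactic C | Infinite P.A} :=
        (Theory.model_union_iff.1 M.is_model).2
      refine h6.realize_of_mem φ.not ?_
      rintro P hP
      let _ := P.order
      let _ := str P.g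
      show (PL P.A) ⊨ φ.not
      rw [Sentence.realize_not]
      exact @hφ P.A P.order hP P.g
    rw [Sentence.realize_not] at h5
    exact h5 h3

/-- (1) The answers to Q1 and Q2: the first-order theories of `P(ℕ)` and `P(ℤ)`, with constants for
all generators, are not decidable. All arithmetical sets and the `ω`-jump are many-one reducible to
the theory of every plactic monoid `P(A)` of infinite rank, with any (countable) set of constants.
(2) One sentence is true exactly in the plactic monoids of infinite rank.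
(3) For every arithmetical set `B`, and for the `ω`-jump `B`, one computable function maps `B` to
sentences true in all plactic monoids, and its complement to sentences false in all plactic monoids
of infinite rank.
(4) So every set that separates the sentences true in all plactic monoids from the sentences false
in all plactic monoids of infinite rank is as complex.
(5) So is the set of the consequences of every theory `T` which implies the sentences that are true
in all plactic monoids and is consistent with the common theory of those of infinite rank.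
(6) So is the common theory of every class of plactic monoids that contains one of infinite rank
(the other members may have finite rank).
(7) So is the theory of every model of the common theory of the plactic monoids of infinite rank. -/
theorem result :
    ((¬ DecidableTheory (id : ℕ → ℕ) ∧ ¬ DecidableTheory (id : ℤ → ℤ)) ∧
      ∀ (A : Type) [LinearOrder A] [Infinite A] (C : Type) [Encodable C] (g : C → A),
        BeyondArithmetic fun n => ∃ φ : (LC C).Sentence, code φ = n ∧ TrueIn g φ) ∧
    (∀ C : Type, ∃ θ : (LC C).Sentence, ∀ (A : Type) [LinearOrder A] (g : C → A),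
      TrueIn g θ ↔ Infinite A) ∧
    (∀ (C : Type) [Encodable C] (B : ℕ → Prop), Arithmetical B ∨ B = OmegaJump →
      ∃ f : ℕ → ℕ, Computable f ∧
        ∀ n, (B n → TrueInAll C (f n)) ∧ (¬ B n → FalseInInfiniteRank C (f n))) ∧
    (∀ (C : Type) [Encodable C] (S : ℕ → Prop), (∀ n, TrueInAll C n → S n) →
      (∀ n, FalseInInfiniteRank C n → ¬ S n) → BeyondArithmetic S) ∧
    (∀ (C : Type) [Encodable C] (T : (LC C).Theory),
      (∀ φ ∈ CommonTheory (Set.univ : Set (Plactic C)), T ⊨ᵇ φ) →
      (T ∪ CommonTheory {P : Plactic C | Infinite P.A}).IsSatisfiable →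
      BeyondArithmetic (Consequences T)) ∧
    (∀ (C : Type) [Encodable C] (𝒦 : Set (Plactic C)), (∃ P ∈ 𝒦, Infinite P.A) →
      BeyondArithmetic (Codes (CommonTheory 𝒦))) ∧
    (∀ (C : Type) [Encodable C] (M : Type u) [(LC C).Structure M],
      M ⊨ CommonTheory {P : Plactic C | Infinite P.A} →
      BeyondArithmetic fun n => ∃ φ : (LC C).Sentence, code φ = n ∧ M ⊨ φ) := by
  have h1 : ∀ (A : Type) [LinearOrder A] [Infinite A] (C : Type) [Encodable C] (g : C → A),
      BeyondArithmetic fun n => ∃ φ : (LC C).Sentence, code φ = n ∧ TrueIn g φ := by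
    intro A _ _ C _ g
    refine separate C _ ?_ ?_
    · rintro n ⟨φ, rfl, hφ⟩
      exact ⟨φ, rfl, hφ A g⟩
    · rintro n ⟨φ, rfl, hφ⟩ ⟨ψ, hψ, hm⟩
      rw [code_injective _ _ hψ] at hm
      exact hφ A g hm
  refine ⟨⟨⟨fun h => (h1 ℕ ℕ id).2.2.2 h, fun h => (h1 ℤ ℤ id).2.2.2 h⟩, h1⟩,
    fun C => Pool.Agent.H59.PU.infinite_rank, uniform, separate,
    fun C _ T => consequences_class T, ?_, ?_⟩
  · rintro C _ 𝒦 ⟨P, hP, hinf⟩
    exact codes_class 𝒦 P hP hinf
  · intro C _ M _ hM
    refine separate C _ ?_ ?_
    · rintro n ⟨φ, rfl, hφ⟩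
      exact ⟨φ, rfl, hM.realize_of_mem φ fun P _ => @hφ P.A P.order P.g⟩
    · rintro n ⟨φ, rfl, hφ⟩ ⟨ψ, hψ, hm⟩
      rw [code_injective _ _ hψ] at hm
      have h5 : M ⊨ φ.not := by
        refine hM.realize_of_mem φ.not ?_
        rintro P hP
        let _ := P.order
        let _ := str P.g
        show (PL P.A) ⊨ φ.not
        rw [Sentence.realize_not]
        exact @hφ P.A P.order hP P.g
      rw [Sentence.realize_not] at h5
      exact h5 hm

end Pool.Agent.Results.MP_54e6ab_lc.EssentiallyNonArithmetical
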